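import Mathlib
import Pool.Agent.Y755.FK.Stm

/-!
# Job FK-OS (helper446), part 1: preliminaries

Bounds for the factors `ff`, the coefficients `gD`, sizes of Dirichlet series with coefficients
bounded by `1`, signs of square roots on convex regions, reality of analytic functions on a
segment.
-/

set_option autoImplicit false

open Finset MeasureTheory Filter

namespace Pool.Agent.Y446.FK

open Pool.Agent.Y755.FK

noncomputable section

lemma ff_fac (p : ℕ) (hp : p.Prime) (s : ℂ) (hs : 0 ≤ s.re) : 1 ≤ ‖2 * (p : ℂ) ^ s + 1‖ := by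
  have h1 : ‖(p : ℂ) ^ s‖ = (p : ℝ) ^ s.re := Complex.norm_natCast_cpow_of_pos hp.pos s
  have h2 : (1 : ℝ) ≤ (p : ℝ) ^ s.re := Real.one_le_rpow (by exact_mod_cast hp.one_lt.le) hs
  have h3 : ‖2 * (p : ℂ) ^ s‖ = 2 * (p : ℝ) ^ s.re := by rw [norm_mul, h1]; simp
  have h4 := norm_sub_norm_le (2 * (p : ℂ) ^ s) (-1)
  rw [norm_neg, norm_one, sub_neg_eq_add, h3] at h4
  linarith

lemma ff_le (s : ℂ) (n : ℕ) (hs : 0 ≤ s.re) : ‖ff s n‖ ≤ 1 := by
  unfold ff
  rw [norm_prod]
  apply Finset.prod_le_one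
  · intro p _; exact norm_nonneg _
  · intro p hp
    rw [norm_inv]
    exact inv_le_one_of_one_le₀ (ff_fac p (Nat.prime_of_mem_primeFactors hp) s hs)

lemma ff_diff (s : ℂ) (n : ℕ) (hs : 0 ≤ s.re) : DifferentiableAt ℂ (fun z => ff z n) s := by
  unfold ff
  apply DifferentiableAt.fun_finsetProd
  intro p hp
  have hp' := Nat.prime_of_mem_primeFactors hp
  have h0 : (p : ℂ) ≠ 0 := by exact_mod_cast hp'.ne_zero
  have h1 : 2 * (p : ℂ) ^ s + 1 ≠ 0 := by
    intro h
    have := ff_fac p hp' s hs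
    rw [h, norm_zero] at this
    linarith
  have h2 : DifferentiableAt ℂ (fun z : ℂ => 2 * (p : ℂ) ^ z + 1) s :=
    ((DifferentiableAt.const_cpow differentiableAt_id (Or.inl h0)).const_mul 2).add_const 1
  exact h2.fun_inv h1

lemma ff_real (x : ℝ) (n : ℕ) : ∃ r : ℝ, 0 < r ∧ ff (x : ℂ) n = (r : ℂ) := by
  refine ⟨∏ p ∈ n.primeFactors, (2 * (p : ℝ) ^ x + 1)⁻¹, ?_, ?_⟩
  · apply Finset.prod_pos
    intro p hp
    have := (Nat.prime_of_mem_primeFactors hp).pos
    positivity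
  · unfold ff
    rw [Complex.ofReal_prod]
    apply Finset.prod_congr rfl
    intro p hp
    rw [Complex.ofReal_inv, Complex.ofReal_add, Complex.ofReal_mul,
      Complex.ofReal_cpow (Nat.cast_nonneg p)]
    simp

lemma gk_le (k : ℕ) : |gk k| ≤ 1 := by
  unfold gk
  split_ifs with h
  · rw [abs_mul, abs_pow, abs_pow]
    have h1 : |(1 / 2 : ℝ)| ^ om k ≤ 1 := pow_le_one₀ (abs_nonneg _) (by rw [abs_of_pos] <;> norm_num)
    have h2 : |(-1 / 2 : ℝ)| ^ (k.primeFactorsList.length - om k) ≤ 1 :=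
      pow_le_one₀ (abs_nonneg _) (by rw [abs_of_neg] <;> norm_num)
    calc _ ≤ (1 : ℝ) * 1 := mul_le_mul h1 h2 (by positivity) (by norm_num)
      _ = 1 := by norm_num
  · simp

lemma J_le (a : ℤ) (n : ℕ) : |J a n| ≤ 1 := by
  unfold J
  rcases jacobiSym.trichotomy a n with h | h | h <;> rw [h] <;> simp

lemma gD_le (D : ℤ) (k : ℕ) : |gD D k| ≤ 1 := by
  unfold gD
  rw [abs_mul]
  calc _ ≤ (1 : ℝ) * 1 := mul_le_mul (gk_le k) (J_le _ _) (abs_nonneg _) (by norm_num)
    _ = 1 := by norm_num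

lemma gD_one (D : ℤ) : gD D 1 = 1 := by
  unfold gD gk rad J om
  simp

/-- the tail of the zeta series -/
lemma zeta_sum (σ : ℝ) (hσ : 1 < σ) : Summable (fun n : ℕ => 1 / ((n : ℝ) + 1) ^ σ) ∧
    ∑' n : ℕ, 1 / ((n : ℝ) + 1) ^ σ ≤ 1 + 1 / (σ - 1) := by
  constructor
  · have := (Real.summable_one_div_nat_rpow (p := σ)).2 hσ
    have h2 := (summable_nat_add_iff 1).2 this
    simpa using h2
  · have h := ZetaAsymptotics.zeta_limit_aux1 hσ
    have h2 : 0 ≤ ZetaAsymptotics.termTSum σ := by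
      unfold ZetaAsymptotics.termTSum
      exact tsum_nonneg fun n => ZetaAsymptotics.term_nonneg _ _
    have h3 : 0 ≤ σ * ZetaAsymptotics.termTSum σ := mul_nonneg (by linarith) h2
    linarith

lemma LS_bound (c : ℕ → ℂ) (hc : ∀ k, ‖c k‖ ≤ 1) (s : ℂ) (hs : 1 < s.re) :
    ‖LSeries c s‖ ≤ 1 + 1 / (s.re - 1) ∧ ‖LSeries c s - c 1‖ ≤ 1 / (s.re - 1) := by
  obtain ⟨hS, hB⟩ := zeta_sum s.re hs
  have hterm : ∀ n : ℕ, ‖LSeries.term c s (n + 1)‖ ≤ 1 / ((n : ℝ) + 1) ^ s.re := by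
    intro n
    rw [LSeries.norm_term_eq, if_neg (Nat.succ_ne_zero n)]
    push_cast
    have : (0 : ℝ) < ((n : ℝ) + 1) ^ s.re := by positivity
    gcongr
    exact hc _
  have hsum1 : Summable (fun n : ℕ => LSeries.term c s (n + 1)) :=
    Summable.of_norm_bounded hS hterm
  have hsum : Summable (LSeries.term c s) := (summable_nat_add_iff 1).1 hsum1
  have e1 : LSeries c s = ∑' n : ℕ, LSeries.term c s (n + 1) := by
    unfold LSeries
    rw [hsum.tsum_eq_zero_add]
    simp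
  have hsum2 : Summable (fun n : ℕ => LSeries.term c s (n + 1 + 1)) := by
    have := (summable_nat_add_iff 1).2 hsum1
    exact this
  have e2 : LSeries c s - c 1 = ∑' n : ℕ, LSeries.term c s (n + 1 + 1) := by
    rw [e1, hsum1.tsum_eq_zero_add]
    simp
  have hS2 : Summable (fun n : ℕ => 1 / (((n + 1 : ℕ) : ℝ) + 1) ^ s.re) :=
    (summable_nat_add_iff 1).2 hS
  have hB2 : ∑' n : ℕ, 1 / (((n + 1 : ℕ) : ℝ) + 1) ^ s.re ≤ 1 / (s.re - 1) := by
    have := hS.tsum_eq_zero_add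
    rw [this] at hB
    simp only [Nat.cast_zero, zero_add, Real.one_rpow] at hB
    linarith
  constructor
  · rw [e1]
    exact (tsum_of_norm_bounded hS.hasSum hterm).trans hB
  · rw [e2]
    refine (tsum_of_norm_bounded hS2.hasSum fun n => ?_).trans hB2
    have := hterm (n + 1)
    exact this

/-- the open rectangle -/
def Rc (a b T : ℝ) : Set ℂ := Set.Ioo a b ×ℂ Set.Ioo (-T) T

lemma mem_Rc (a b T : ℝ) (s : ℂ) : s ∈ Rc a b T ↔ (a < s.re ∧ s.re < b) ∧ |s.im| < T := by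
  unfold Rc
  rw [Complex.mem_reProdIm, abs_lt]
  rfl

lemma Rc_pre (a b T : ℝ) : IsPreconnected (Rc a b T) :=
  (((convex_Ioo a b).linear_preimage Complex.reLm).inter
    ((convex_Ioo (-T) T).linear_preimage Complex.imLm)).isPreconnected

lemma Rc_open (a b T : ℝ) : IsOpen (Rc a b T) := isOpen_Ioo.reProdIm isOpen_Ioo

/-- signs of square roots -/
lemma sq_sign (a b T : ℝ) (f g : ℂ → ℂ) (hf : ContinuousOn f (Rc a b T))
    (hg : ContinuousOn g (Rc a b T)) (hsq : ∀ s ∈ Rc a b T, f s ^ 2 = g s ^ 2)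
    (hne : ∀ s ∈ Rc a b T, g s ≠ 0) :
    ∃ σ : ℂ, (σ = 1 ∨ σ = -1) ∧ ∀ s ∈ Rc a b T, f s = σ * g s := by
  rcases (Rc_pre a b T).eq_or_eq_neg_of_sq_eq hf hg (fun s hs => hsq s hs)
    (fun {s} hs => hne s hs) with h | h
  · exact ⟨1, Or.inl rfl, fun s hs => by rw [one_mul]; exact h hs⟩
  · exact ⟨-1, Or.inr rfl, fun s hs => by rw [neg_one_mul]; exact h hs⟩

/-- analytic functions real on a part of the segment are real on the segment -/
lemma real_on (a b T x0 : ℝ) (hT : 0 < T) (K : ℂ → ℂ)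
    (hK : ∀ s ∈ Rc a b T, DifferentiableAt ℂ K s) (hx : a < x0) (hx' : x0 < b)
    (hr : ∀ x : ℝ, x0 < x → x < b → (K x).im = 0) :
    ∀ x : ℝ, a < x → x < b → (K x).im = 0 := by
  have hKd : DifferentiableOn ℂ K (Rc a b T) := fun s hs => (hK s hs).differentiableWithinAt
  set K2 : ℂ → ℂ := fun s => (starRingEnd ℂ) (K ((starRingEnd ℂ) s)) with hK2
  have hc : ∀ s ∈ Rc a b T, (starRingEnd ℂ) s ∈ Rc a b T := by
    intro s hs
    rw [mem_Rc] at hs ⊢
    simpa using hs
  have hK2d : DifferentiableOn ℂ K2 (Rc a b T) := by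
    intro s hs
    have h1 := (hK _ (hc s hs)).conj_conj
    rw [Complex.conj_conj] at h1
    exact h1.differentiableWithinAt
  have hA := hKd.analyticOnNhd (Rc_open a b T)
  have hA2 := hK2d.analyticOnNhd (Rc_open a b T)
  set x1 : ℝ := (x0 + b) / 2 with hx1
  have hx1a : x0 < x1 := by rw [hx1]; linarith
  have hx1b : x1 < b := by rw [hx1]; linarith
  have hz : (x1 : ℂ) ∈ Rc a b T := by
    rw [mem_Rc]
    simp only [Complex.ofReal_re, Complex.ofReal_im, abs_zero]
    exact ⟨⟨by linarith, hx1b⟩, hT⟩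
  have hfreq : ∃ᶠ z in nhdsWithin (x1 : ℂ) {(x1 : ℂ)}ᶜ, K z = K2 z := by
    have hseq : Tendsto (fun n : ℕ => ((x1 + (b - x1) / 2 / ((n : ℝ) + 1) : ℝ) : ℂ)) atTop
        (nhdsWithin (x1 : ℂ) {(x1 : ℂ)}ᶜ) := by
      rw [tendsto_nhdsWithin_iff]
      constructor
      · have h1 : Tendsto (fun n : ℕ => (b - x1) / 2 / ((n : ℝ) + 1)) atTop (nhds 0) :=
          (tendsto_const_div_atTop_nhds_zero_nat ((b - x1) / 2)).comp (tendsto_add_atTop_nat 1)
            |>.congr fun n => by simp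
        have h2 := (tendsto_const_nhds (x := x1)).add h1
        rw [add_zero] at h2
        exact (Complex.continuous_ofReal.tendsto x1).comp h2
      · refine Filter.Eventually.of_forall fun n => ?_
        simp only [Set.mem_compl_iff, Set.mem_singleton_iff]
        intro h
        have h3 := Complex.ofReal_injective h
        have : 0 < (b - x1) / 2 / ((n : ℝ) + 1) := by
          have : 0 < b - x1 := by linarith
          positivity
        linarith
    refine hseq.frequently (Filter.Eventually.of_forall fun n => ?_).frequently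
    have h0 : 0 < b - x1 := by linarith
    have h1 : 0 < (b - x1) / 2 / ((n : ℝ) + 1) := by positivity
    have h2 : (b - x1) / 2 / ((n : ℝ) + 1) ≤ (b - x1) / 2 := by
      apply div_le_self (by linarith)
      have : (0 : ℝ) ≤ n := Nat.cast_nonneg n
      linarith
    have h3 := hr (x1 + (b - x1) / 2 / ((n : ℝ) + 1)) (by linarith) (by linarith)
    rw [hK2]
    simp only [Complex.conj_ofReal]
    exact (Complex.conj_eq_iff_im.2 h3).symm
  have hE := hA.eqOn_of_preconnected_of_frequently_eq hA2 (Rc_pre a b T) hz hfreq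
  intro x hx2 hx3
  have hm : (x : ℂ) ∈ Rc a b T := by
    rw [mem_Rc]
    simp only [Complex.ofReal_re, Complex.ofReal_im, abs_zero]
    exact ⟨⟨hx2, hx3⟩, hT⟩
  have h4 := hE hm
  rw [hK2] at h4
  simp only [Complex.conj_ofReal] at h4
  exact Complex.conj_eq_iff_im.1 h4.symm

/-- positivity on a segment -/
lemma pos_on (a b T x0 : ℝ) (hT : 0 < T) (K : ℂ → ℂ)
    (hK : ∀ s ∈ Rc a b T, DifferentiableAt ℂ K s) (hne : ∀ s ∈ Rc a b T, K s ≠ 0)
    (hi : ∀ x : ℝ, a < x → x < b → (K x).im = 0) (hx : a < x0) (hx' : x0 < b)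
    (h0 : 0 < (K x0).re) : ∀ x : ℝ, a < x → x < b → 0 < (K x).re := by
  have hm : ∀ x : ℝ, a < x → x < b → (x : ℂ) ∈ Rc a b T := by
    intro x hx2 hx3
    rw [mem_Rc]
    simp only [Complex.ofReal_re, Complex.ofReal_im, abs_zero]
    exact ⟨⟨hx2, hx3⟩, hT⟩
  have hcont : ContinuousOn (fun x : ℝ => (K x).re) (Set.Ioo a b) := by
    intro x hx2
    have h1 := (hK x (hm x hx2.1 hx2.2)).continuousAt
    have h2 : ContinuousAt (fun x : ℝ => K x) x :=
      ContinuousAt.comp (f := fun x : ℝ => (x : ℂ)) h1 Complex.continuous_ofReal.continuousAt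
    exact (Complex.continuous_re.continuousAt.comp h2).continuousWithinAt
  intro x hx2 hx3
  by_contra hneg
  push Not at hneg
  have hpre : IsPreconnected (Set.Ioo a b) := isPreconnected_Ioo
  have := hpre.intermediate_value ⟨hx2, hx3⟩ ⟨hx, hx'⟩ hcont
  obtain ⟨y, hy, hy2⟩ := this ⟨hneg, h0.le⟩
  apply hne y (hm y hy.1 hy.2)
  apply Complex.ext
  · simpa using hy2
  · simpa using hi y hy.1 hy.2

end

end Pool.Agent.Y446.FK
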