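import Mathlib
import Pool.Agent.Y446.FK.OSA

/-!
# Job FK-OS (helper446), part 2: square roots on rectangles, with and without a real zero
-/

set_option autoImplicit false

open Finset MeasureTheory Filter

namespace Pool.Agent.Y446.FK

open Pool.Agent.Y755.FK

noncomputable section

lemma Rc_sub (a a' b T : ℝ) (h : a ≤ a') : Rc a' b T ⊆ Rc a b T := by
  intro s hs
  rw [mem_Rc] at hs ⊢
  exact ⟨⟨by linarith [hs.1.1], hs.1.2⟩, hs.2⟩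

/-- no zero: the Dirichlet series is continued by a square root -/
lemma rectA (hSQR : S_SQR) (L E F : ℂ → ℂ) (a T : ℝ) (hL : Differentiable ℂ L)
    (hE : ∀ s : ℂ, 3 / 4 < s.re → DifferentiableAt ℂ E s ∧ E s ≠ 0)
    (hF : ∀ s : ℂ, 1 < s.re → DifferentiableAt ℂ F s)
    (hFF : ∀ s : ℂ, 1 < s.re → F s ^ 2 = L s * E s) (ha : 3 / 4 < a) (ha1 : a < 1) (hT : 0 < T)
    (hne : ∀ s ∈ Rc a 4 T, L s ≠ 0) :
    ∃ K : ℂ → ℂ, (∀ s ∈ Rc a 4 T, DifferentiableAt ℂ K s ∧ K s ^ 2 = L s * E s) ∧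
      ∀ s ∈ Rc 1 4 T, F s = K s := by
  obtain ⟨K0, hK0⟩ := hSQR (fun s => L s * E s) a 4 T (by linarith) hT (by
    intro s h1 h2 h3
    have hs : s ∈ Rc a 4 T := (mem_Rc _ _ _ _).2 ⟨⟨h1, h2⟩, h3⟩
    obtain ⟨e1, e2⟩ := hE s (by linarith)
    exact ⟨(hL s).mul e1, mul_ne_zero (hne s hs) e2⟩)
  have hK0' : ∀ s ∈ Rc a 4 T, DifferentiableAt ℂ K0 s ∧ K0 s ^ 2 = L s * E s := by
    intro s hs
    rw [mem_Rc] at hs
    exact hK0 s hs.1.1 hs.1.2 hs.2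
  have hsub := Rc_sub a 1 4 T ha1.le
  obtain ⟨σ, hσ, h⟩ := sq_sign 1 4 T F K0
    (fun s hs => (hF s ((mem_Rc _ _ _ _).1 hs).1.1).continuousAt.continuousWithinAt)
    (fun s hs => (hK0' s (hsub hs)).1.continuousAt.continuousWithinAt)
    (fun s hs => by rw [hFF s ((mem_Rc _ _ _ _).1 hs).1.1, (hK0' s (hsub hs)).2])
    (fun s hs h0 => by
      have h1 := (hK0' s (hsub hs)).2
      rw [h0] at h1
      have h2 := (mem_Rc _ _ _ _).1 hs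
      exact mul_ne_zero (hne s (hsub hs)) (hE s (by linarith [h2.1.1])).2 (by rw [← h1]; norm_num))
  have hσ2 : σ ^ 2 = 1 := by rcases hσ with h | h <;> rw [h] <;> norm_num
  refine ⟨fun s => σ * K0 s, fun s hs => ⟨(hK0' s hs).1.const_mul σ, ?_⟩, h⟩
  simp only
  rw [mul_pow, hσ2, one_mul, (hK0' s hs).2]

lemma half_sq (z : ℂ) : (z ^ ((1 / 2 : ℝ) : ℂ)) ^ 2 = z := by
  rw [← Complex.cpow_nat_mul]
  have : ((2 : ℕ) : ℂ) * ((1 / 2 : ℝ) : ℂ) = 1 := by push_cast; norm_num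
  rw [this, Complex.cpow_one]

/-- one simple real zero -/
lemma rectB (hSQR : S_SQR) (L l E F : ℂ → ℂ) (a T β : ℝ) (hl : Differentiable ℂ l)
    (hLl : ∀ s : ℂ, L s = (s - β) * l s) (hβ : β < 1)
    (hE : ∀ s : ℂ, 3 / 4 < s.re → DifferentiableAt ℂ E s ∧ E s ≠ 0)
    (hF : ∀ s : ℂ, 1 < s.re → DifferentiableAt ℂ F s)
    (hFF : ∀ s : ℂ, 1 < s.re → F s ^ 2 = L s * E s) (ha : 3 / 4 < a) (ha1 : a < 1) (hT : 0 < T)
    (hne : ∀ s ∈ Rc a 4 T, l s ≠ 0) (hFr : ∀ x : ℝ, 1 < x → (F x).im = 0)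
    (hF3 : 0 < (F ((3 : ℝ) : ℂ)).re) :
    ∃ K : ℂ → ℂ, (∀ s ∈ Rc a 4 T, DifferentiableAt ℂ K s ∧ K s ^ 2 = l s * E s) ∧
      (∀ s ∈ Rc 1 4 T, F s = (s - β) ^ ((1 / 2 : ℝ) : ℂ) * K s) ∧
      ∀ x : ℝ, a < x → x < 4 → ∃ r : ℝ, 0 < r ∧ K x = r := by
  obtain ⟨K0, hK0⟩ := hSQR (fun s => l s * E s) a 4 T (by linarith) hT (by
    intro s h1 h2 h3
    have hs : s ∈ Rc a 4 T := (mem_Rc _ _ _ _).2 ⟨⟨h1, h2⟩, h3⟩
    obtain ⟨e1, e2⟩ := hE s (by linarith)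
    exact ⟨(hl s).mul e1, mul_ne_zero (hne s hs) e2⟩)
  have hK0' : ∀ s ∈ Rc a 4 T, DifferentiableAt ℂ K0 s ∧ K0 s ^ 2 = l s * E s := by
    intro s hs
    rw [mem_Rc] at hs
    exact hK0 s hs.1.1 hs.1.2 hs.2
  have hKne : ∀ s ∈ Rc a 4 T, K0 s ≠ 0 := by
    intro s hs h0
    have h1 := (hK0' s hs).2
    rw [h0] at h1
    have h2 := (mem_Rc _ _ _ _).1 hs
    exact mul_ne_zero (hne s hs) (hE s (by linarith [h2.1.1])).2 (by rw [← h1]; norm_num)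
  have hsub := Rc_sub a 1 4 T ha1.le
  have hPd : ∀ s : ℂ, 1 < s.re →
      DifferentiableAt ℂ (fun z : ℂ => (z - β) ^ ((1 / 2 : ℝ) : ℂ)) s := by
    intro s hs
    have h1 : DifferentiableAt ℂ (fun z : ℂ => z - β) s := differentiableAt_id.sub_const _
    apply h1.cpow_const
    left
    simp only [Complex.sub_re, Complex.ofReal_re]
    linarith
  have hPne : ∀ s : ℂ, 1 < s.re → (s - β) ^ ((1 / 2 : ℝ) : ℂ) ≠ 0 := by
    intro s hs h0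
    have h1 := half_sq (s - β)
    rw [h0] at h1
    have h2 : s - β = 0 := by rw [← h1]; norm_num
    have h3 := congrArg Complex.re h2
    simp only [Complex.sub_re, Complex.ofReal_re, Complex.zero_re] at h3
    linarith
  obtain ⟨σ, hσ, h⟩ := sq_sign 1 4 T F (fun s => (s - β) ^ ((1 / 2 : ℝ) : ℂ) * K0 s)
    (fun s hs => (hF s ((mem_Rc _ _ _ _).1 hs).1.1).continuousAt.continuousWithinAt)
    (fun s hs => ((hPd s ((mem_Rc _ _ _ _).1 hs).1.1).mul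
      (hK0' s (hsub hs)).1).continuousAt.continuousWithinAt)
    (fun s hs => by
      rw [hFF s ((mem_Rc _ _ _ _).1 hs).1.1, mul_pow, half_sq, (hK0' s (hsub hs)).2, hLl s]
      ring)
    (fun s hs => mul_ne_zero (hPne s ((mem_Rc _ _ _ _).1 hs).1.1) (hKne s (hsub hs)))
  have hσ2 : σ ^ 2 = 1 := by rcases hσ with h | h <;> rw [h] <;> norm_num
  have hσ0 : σ ≠ 0 := by rcases hσ with h | h <;> rw [h] <;> norm_num
  set K : ℂ → ℂ := fun s => σ * K0 s with hK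
  have hKd : ∀ s ∈ Rc a 4 T, DifferentiableAt ℂ K s := fun s hs => (hK0' s hs).1.const_mul σ
  have hK2 : ∀ s ∈ Rc 1 4 T, F s = (s - β) ^ ((1 / 2 : ℝ) : ℂ) * K s := by
    intro s hs
    rw [h s hs, hK]
    ring
  have hmem : ∀ x : ℝ, 1 < x → x < 4 → (x : ℂ) ∈ Rc 1 4 T := by
    intro x h1 h2
    rw [mem_Rc]
    simp only [Complex.ofReal_re, Complex.ofReal_im, abs_zero]
    exact ⟨⟨h1, h2⟩, hT⟩
  have hPr : ∀ x : ℝ, 1 < x → ∃ r : ℝ, 0 < r ∧ ((x : ℂ) - β) ^ ((1 / 2 : ℝ) : ℂ) = r := by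
    intro x hx
    refine ⟨(x - β) ^ (1 / 2 : ℝ), Real.rpow_pos_of_pos (by linarith) _, ?_⟩
    rw [Complex.ofReal_cpow (by linarith)]
    push_cast
    ring
  have hi1 : ∀ x : ℝ, 1 < x → x < 4 → (K x).im = 0 := by
    intro x h1 h2
    obtain ⟨r, hr, hr2⟩ := hPr x h1
    have h3 := hK2 x (hmem x h1 h2)
    rw [hr2] at h3
    have h4 := congrArg Complex.im h3
    rw [Complex.im_ofReal_mul, hFr x h1] at h4
    exact (mul_eq_zero.1 h4.symm).resolve_left hr.ne'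
  have hi := real_on a 4 T 1 hT K hKd ha1 (by norm_num) hi1
  have h30 : 0 < (K ((3 : ℝ) : ℂ)).re := by
    obtain ⟨r, hr, hr2⟩ := hPr 3 (by norm_num)
    have h3 := hK2 ((3 : ℝ) : ℂ) (hmem 3 (by norm_num) (by norm_num))
    rw [hr2] at h3
    have h4 := congrArg Complex.re h3
    rw [Complex.re_ofReal_mul] at h4
    rw [h4] at hF3
    exact (mul_pos_iff_of_pos_left hr).1 hF3
  have hpos := pos_on a 4 T 3 hT K hKd (fun s hs => mul_ne_zero hσ0 (hKne s hs)) hi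
    (by linarith) (by norm_num) h30
  refine ⟨K, fun s hs => ⟨hKd s hs, ?_⟩, hK2, ?_⟩
  · rw [hK]
    simp only
    rw [mul_pow, hσ2, one_mul, (hK0' s hs).2]
  · intro x h1 h2
    refine ⟨(K x).re, hpos x h1 h2, ?_⟩
    apply Complex.ext
    · simp
    · simpa using hi x h1 h2

/-- the quotient by `s - β` near `β` -/
lemma quot_bound (L l : ℂ → ℂ) (β ρ M : ℝ) (hl : Differentiable ℂ l)
    (hLl : ∀ s : ℂ, L s = (s - β) * l s) (hρ : 0 < ρ)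
    (hM : ∀ s : ℂ, ‖s - β‖ = ρ → ‖L s‖ ≤ M) :
    ∀ s : ℂ, (ρ ≤ ‖s - β‖ → ‖L s‖ ≤ M) → ‖l s‖ ≤ M / ρ := by
  have h1 : ∀ s : ℂ, ρ ≤ ‖s - β‖ → ‖L s‖ ≤ M → ‖l s‖ ≤ M / ρ := by
    intro s hs hs2
    rw [hLl s, norm_mul] at hs2
    rw [le_div_iff₀ hρ]
    calc ‖l s‖ * ρ ≤ ‖l s‖ * ‖s - β‖ := by gcongr
      _ ≤ M := by rw [mul_comm]; exact hs2
  intro s hs
  rcases le_or_gt ρ ‖s - β‖ with h | h
  · exact h1 s h (hs h)
  · have hb : Bornology.IsBounded (Metric.ball (β : ℂ) ρ) := Metric.isBounded_ball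
    apply Complex.norm_le_of_forall_mem_frontier_norm_le hb hl.diffContOnCl (C := M / ρ)
    · intro z hz
      rw [frontier_ball (β : ℂ) hρ.ne'] at hz
      rw [mem_sphere_iff_norm] at hz
      exact h1 z hz.ge (hM z hz)
    · apply subset_closure
      rw [Metric.mem_ball, dist_eq_norm]
      exact h

lemma sq_bound (z : ℂ) (X : ℝ) (h : ‖z ^ 2‖ ≤ X) : ‖z‖ ≤ 1 + X := by
  rw [norm_pow] at h
  nlinarith [norm_nonneg z, sq_nonneg (‖z‖ - 1)]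

end

end Pool.Agent.Y446.FK
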