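import Mathlib
import Pool.Agent.Y446.FK.OSB

/-!
# Job FK-OS (helper446): one-sided bound with a possible exceptional zero

`t_OS : S_CT → S_CK → S_SQR → S_CHAR → S_ZFR → S_LUP → S_EW → S_TAC → S_OS`.
-/

set_option autoImplicit false

open Finset MeasureTheory Filter

namespace Pool.Agent.Y446.FK

open Pool.Agent.Y755.FK

noncomputable section

lemma KK_abs (κ : ℤ) (hκ : κ ∈ KK) : κ.natAbs = 1 ∨ κ.natAbs = 2 := by
  unfold KK at hκ
  simp only [Finset.mem_insert, Finset.mem_singleton] at hκ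
  rcases hκ with h | h | h | h <;> rw [h] <;> decide

lemma D_sqf (κ : ℤ) (d : ℕ) (hκ : κ ∈ KK) (hd : osf d) : Squarefree (κ * d) := by
  rw [← Int.squarefree_natAbs, Int.natAbs_mul, Int.natAbs_natCast]
  rcases KK_abs κ hκ with h | h <;> rw [h]
  · rw [one_mul]; exact hd.2
  · rw [Nat.squarefree_mul (Nat.coprime_two_left.2 hd.1)]
    exact ⟨Nat.prime_two.squarefree, hd.2⟩

lemma D_ne (κ : ℤ) (d : ℕ) (h : ¬ (d = 1 ∧ κ = 1)) : κ * d ≠ 1 := by
  intro h1
  apply h
  have h2 := Int.natAbs_mul κ d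
  rw [h1, Int.natAbs_natCast] at h2
  have h3 : d = 1 := by
    have : (Int.natAbs 1) = 1 := rfl
    rw [this] at h2
    exact Nat.eq_one_of_mul_eq_one_left h2.symm
  refine ⟨h3, ?_⟩
  rw [h3] at h1
  simpa using h1

lemma D_abs (κ : ℤ) (d : ℕ) (hκ : κ ∈ KK) : |((κ * d : ℤ) : ℝ)| ≤ 2 * d := by
  have h0 : |((d : ℕ) : ℝ)| = d := abs_of_nonneg (Nat.cast_nonneg d)
  rw [Int.cast_mul, abs_mul, Int.cast_natCast, h0]
  have : |(κ : ℝ)| ≤ 2 := by
    rw [← Int.cast_abs, ← Int.natCast_natAbs]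
    rcases KK_abs κ hκ with h | h <;> rw [h] <;> norm_num
  gcongr

/-- the size of `log (q T)` -/
lemma ell_bd (q : ℕ) (hq : 1 ≤ q) (x : ℝ) (hx : 1 ≤ x) (hq2 : (q : ℝ) ≤ 8 * Real.exp x) :
    x ≤ Real.log (q * (Real.exp x + 2)) ∧ Real.log (q * (Real.exp x + 2)) ≤ 5 * x := by
  have hq1 : (1 : ℝ) ≤ q := by exact_mod_cast hq
  have he : 2 ≤ Real.exp x := by
    have := Real.add_one_le_exp x
    linarith
  constructor
  · rw [Real.le_log_iff_exp_le (by positivity)]
    nlinarith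
  · have h1 : (q : ℝ) * (Real.exp x + 2) ≤ 16 * Real.exp (2 * x) := by
      have h2 : Real.exp (2 * x) = Real.exp x * Real.exp x := by rw [← Real.exp_add]; ring_nf
      rw [h2]
      nlinarith
    have h3 : Real.log 16 ≤ 3 := by
      have h4 : (16 : ℝ) = 2 ^ 4 := by norm_num
      rw [h4, Real.log_pow]
      have := Real.log_two_lt_d9
      push_cast
      linarith
    calc Real.log (q * (Real.exp x + 2)) ≤ Real.log (16 * Real.exp (2 * x)) :=
          Real.log_le_log (by positivity) h1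
      _ = Real.log 16 + 2 * x := by
          rw [Real.log_mul (by norm_num) (Real.exp_pos _).ne', Real.log_exp]
      _ ≤ 5 * x := by linarith

/-- the size of `L` in the region -/
lemma L_bd (CL : ℝ) (hL : ∀ (q : ℕ) [NeZero q] (χ : DirichletCharacter ℂ q), χ ≠ 1 →
    ∀ s : ℂ, 1 / 2 ≤ s.re → s.re ≤ 3 → ‖DirichletCharacter.LFunction χ s‖ ≤
      CL * Real.log (q * (|s.im| + 3)) * ((q : ℝ) * (|s.im| + 3)) ^ (max 0 (1 - s.re)))
    (q : ℕ) [NeZero q] (χ : DirichletCharacter ℂ q) (hχ : χ ≠ 1) (T ℓ η0 : ℝ) (hT : 4 ≤ T)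
    (hℓ : ℓ = Real.log (q * T)) (hℓ1 : 1 ≤ ℓ) (hη : 0 ≤ η0) (hη8 : η0 * ℓ ≤ 1 / 8)
    (s : ℂ) (h1 : 1 - η0 ≤ s.re) (h2 : s.re ≤ 3) (h3 : |s.im| ≤ T) :
    ‖DirichletCharacter.LFunction χ s‖ ≤ 4 * |CL| * ℓ := by
  have hq1 : (1 : ℝ) ≤ q := by exact_mod_cast NeZero.one_le
  have hη2 : η0 ≤ 1 / 8 := by nlinarith
  have hb := hL q χ hχ s (by linarith) h2
  set b : ℝ := (q : ℝ) * (|s.im| + 3) with hbdef
  have hb1 : 1 ≤ b := by
    have : 0 ≤ |s.im| := abs_nonneg _
    nlinarith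
  have hb2 : b ≤ 2 * (q * T) := by
    have : 0 ≤ |s.im| := abs_nonneg _
    nlinarith
  have hqT : 0 < (q : ℝ) * T := by positivity
  have hlog : Real.log b ≤ 2 * ℓ := by
    calc Real.log b ≤ Real.log (2 * (q * T)) := Real.log_le_log (by linarith) hb2
      _ = Real.log 2 + ℓ := by rw [Real.log_mul (by norm_num) hqT.ne', hℓ]
      _ ≤ 2 * ℓ := by
        have := Real.log_two_lt_d9
        linarith
  have hlog0 : 0 ≤ Real.log b := Real.log_nonneg hb1
  have hpow : b ^ (max 0 (1 - s.re)) ≤ 2 := by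
    have e1 : max 0 (1 - s.re) ≤ η0 := max_le hη (by linarith)
    calc b ^ (max 0 (1 - s.re)) ≤ b ^ η0 := Real.rpow_le_rpow_of_exponent_le hb1 e1
      _ = Real.exp (Real.log b * η0) := by rw [Real.rpow_def_of_pos (by linarith)]
      _ ≤ Real.exp (1 / 4) := by
        apply Real.exp_le_exp.2
        nlinarith
      _ ≤ 2 := by
        have h5 : Real.exp (1 / 4 : ℝ) ≤ Real.exp (Real.log 2) := by
          apply Real.exp_le_exp.2
          have := Real.log_two_gt_d9
          linarith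
        rwa [Real.exp_log (by norm_num)] at h5
  calc _ ≤ CL * Real.log b * b ^ (max 0 (1 - s.re)) := hb
    _ ≤ |CL| * Real.log b * b ^ (max 0 (1 - s.re)) := by
      gcongr
      exact le_abs_self _
    _ ≤ |CL| * (2 * ℓ) * 2 := by gcongr
    _ = 4 * |CL| * ℓ := by ring

/-- `u e^{-2 a √u}` -/
lemma u_exp (a x : ℝ) (ha : 0 < a) (hx : 0 ≤ x) :
    x ^ 2 * Real.exp (-(2 * a * x)) ≤ 2 / a ^ 2 * Real.exp (-(a * x)) := by
  have h1 := Real.quadratic_le_exp_of_nonneg (x := a * x) (by positivity)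
  have h2 : x ^ 2 ≤ 2 / a ^ 2 * Real.exp (a * x) := by
    rw [div_mul_eq_mul_div, le_div_iff₀ (by positivity)]
    have : 0 ≤ a * x := by positivity
    nlinarith
  calc x ^ 2 * Real.exp (-(2 * a * x)) ≤ 2 / a ^ 2 * Real.exp (a * x) * Real.exp (-(2 * a * x)) := by
        gcongr
    _ = 2 / a ^ 2 * (Real.exp (a * x) * Real.exp (-(2 * a * x))) := by ring
    _ = 2 / a ^ 2 * Real.exp (-(a * x)) := by
        rw [← Real.exp_add]; ring_nf

lemma LR_re (c : ℕ → ℝ) (u : ℝ) : LR c u = (LS (fun k => (c k : ℂ)) u).re := by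
  unfold LR LS
  rw [Complex.re_sum]
  apply Finset.sum_congr rfl
  intro k _
  have : (c k : ℂ) / (k : ℂ) * ((φ (u - Real.log k) : ℝ) : ℂ) =
      ((c k / k * φ (u - Real.log k) : ℝ) : ℂ) := by push_cast; ring
  rw [this, Complex.ofReal_re]

/-- the last estimate -/
lemma final_bd (C B u η T m x : ℝ) (hC : 0 ≤ C) (B0 : ℝ) (hB0 : 0 ≤ B0) (hB : B ≤ B0 * u)
    (hx : 1 ≤ x)
    (hxu : x ^ 2 = u) (hm : 0 < m) (hm8 : m ≤ 1 / 8) (hη : m / (20 * x) ≤ η)
    (hT : Real.exp x ≤ T) :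
    C * B * (Real.exp (-(η * u)) + 1 / T) ≤
      C * B0 * (2 * (2 / (m / 40) ^ 2)) * Real.exp (-(m / 40 * x)) := by
  have h1 : Real.exp (-(η * u)) ≤ Real.exp (-(2 * (m / 40) * x)) := by
    apply Real.exp_le_exp.2
    have : m / (20 * x) * u ≤ η * u := by
      apply mul_le_mul_of_nonneg_right hη
      rw [← hxu]; positivity
    have h2 : m / (20 * x) * u = 2 * (m / 40) * x := by
      rw [← hxu]; field_simp; ring
    linarith
  have h2 : 1 / T ≤ Real.exp (-(2 * (m / 40) * x)) := by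
    calc 1 / T ≤ 1 / Real.exp x := one_div_le_one_div_of_le (Real.exp_pos _) hT
      _ = Real.exp (-x) := by rw [Real.exp_neg]; ring
      _ ≤ _ := by
        apply Real.exp_le_exp.2
        nlinarith
  have h3 := u_exp (m / 40) x (by positivity) (by linarith)
  rw [hxu] at h3
  have hu : 0 ≤ u := by rw [← hxu]; positivity
  calc C * B * (Real.exp (-(η * u)) + 1 / T)
      ≤ C * (B0 * u) * (Real.exp (-(2 * (m / 40) * x)) + Real.exp (-(2 * (m / 40) * x))) := by
        have hTp : 0 < T := lt_of_lt_of_le (Real.exp_pos _) hT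
        gcongr
    _ = C * B0 * 2 * (u * Real.exp (-(2 * (m / 40) * x))) := by ring
    _ ≤ C * B0 * 2 * (2 / (m / 40) ^ 2 * Real.exp (-(m / 40 * x))) := by gcongr
    _ = _ := by ring

theorem t_OS : S_CT → S_CK → S_SQR → S_CHAR → S_ZFR → S_LUP → S_EW → S_TAC → S_OS := by
  intro hCT hCK hSQR hCHAR hZFR hLUP hEW hTAC
  obtain ⟨C1, hC1, hCT⟩ := hCT
  obtain ⟨C2, hC2, hCK⟩ := hCK
  obtain ⟨c0, hc0, hZ⟩ := hZFR
  obtain ⟨CL, hL⟩ := hLUP
  obtain ⟨CE, hE⟩ := hEW
  set m : ℝ := min c0 (1 / 8) with hm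
  have hm0 : 0 < m := lt_min hc0 (by norm_num)
  have hm8 : m ≤ 1 / 8 := min_le_right _ _
  have hmc : m ≤ c0 := min_le_left _ _
  set B0 : ℝ := 3 + (20 * |CL| + 800 * |CL| / m) * |CE| with hB0
  have hB00 : 0 ≤ B0 := by positivity
  refine ⟨m / 40, (C1 + C2) * B0 * (2 * (2 / (m / 40) ^ 2)), by positivity, by positivity, ?_⟩
  intro u d κ hu hd hκ hnt hdu
  set x : ℝ := √u with hx
  have hxu : x ^ 2 = u := Real.sq_sqrt (by linarith)
  have hx1 : 1 ≤ x := by rw [hx]; exact Real.one_le_sqrt.2 hu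
  have hxleu : x ≤ u := by nlinarith
  set D : ℤ := κ * d with hD
  have hDsq : Squarefree D := D_sqf κ d hκ hd
  have hDne : D ≠ 1 := D_ne κ d hnt
  have hD0 : D ≠ 0 := hDsq.ne_zero
  obtain ⟨q, hqne, χ, hq4, hchi, hχ2, hχ1⟩ := hCHAR D hDsq hDne
  have hq8 : (q : ℝ) ≤ 8 * Real.exp x := by
    calc (q : ℝ) ≤ 4 * |(D : ℝ)| := hq4
      _ ≤ 4 * (2 * d) := by
        have := D_abs κ d hκ
        gcongr
      _ ≤ 8 * Real.exp x := by linarith
  have hq1 : 1 ≤ q := NeZero.one_le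
  set T : ℝ := Real.exp x + 2 with hT
  have hex : 2 ≤ Real.exp x := by
    have := Real.add_one_le_exp x
    linarith
  have hT4 : 4 ≤ T := by rw [hT]; linarith
  obtain ⟨β, hβ1, hzero⟩ := hZ q χ hχ2 hχ1 T (by linarith)
  set ℓ : ℝ := Real.log (q * T) with hℓ
  obtain ⟨hℓx, hℓ5⟩ := ell_bd q hq1 x hx1 hq8
  rw [← hT, ← hℓ] at hℓx hℓ5
  have hℓ1 : 1 ≤ ℓ := le_trans hx1 hℓx
  set η0 : ℝ := m / ℓ with hη0
  have hη0p : 0 < η0 := by positivity
  have hη0ℓ : η0 * ℓ = m := by rw [hη0]; field_simp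
  have hη08 : η0 ≤ 1 / 8 := by nlinarith
  have hη0x : m / (5 * x) ≤ η0 := by
    rw [hη0]
    apply div_le_div_of_nonneg_left hm0.le (by linarith) hℓ5
  have hη0c : η0 ≤ c0 / ℓ := by
    rw [hη0]; gcongr
  have hLb : ∀ s : ℂ, 1 - η0 ≤ s.re → s.re ≤ 3 → |s.im| ≤ T →
      ‖DirichletCharacter.LFunction χ s‖ ≤ 4 * |CL| * ℓ :=
    fun s h1 h2 h3 => L_bd CL hL q χ hχ1 T ℓ η0 hT4 hℓ hℓ1 hη0p.le (by rw [hη0ℓ]; exact hm8)
      s h1 h2 h3
  obtain ⟨E, hE1, hE2, hE3⟩ := hE D hD0
  set L : ℂ → ℂ := DirichletCharacter.LFunction χ with hLdef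
  have hLd : Differentiable ℂ L := DirichletCharacter.differentiable_LFunction hχ1
  set F : ℂ → ℂ := LSeries (fun k => (gD D k : ℂ)) with hFdef
  have hFsum : ∀ s : ℂ, 1 < s.re → LSeriesSummable (fun k => (gD D k : ℂ)) s :=
    fun s hs => (hE3 q χ hchi s hs).1
  have hFF : ∀ s : ℂ, 1 < s.re → F s ^ 2 = L s * E s := fun s hs => (hE3 q χ hchi s hs).2
  have hgD1 : ∀ k, ‖((gD D k : ℝ) : ℂ)‖ ≤ 1 := by
    intro k
    rw [Complex.norm_real, Real.norm_eq_abs]
    exact gD_le D k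
  have hFd : ∀ s : ℂ, 1 < s.re → DifferentiableAt ℂ F s := by
    intro s hs
    have hab : LSeries.abscissaOfAbsConv (fun k => (gD D k : ℂ)) ≤ (1 : ℝ) := by
      apply LSeries.abscissaOfAbsConv_le_of_forall_lt_LSeriesSummable
      intro y hy
      exact hFsum y (by simpa using hy)
    have h1 : LSeries.abscissaOfAbsConv (fun k => (gD D k : ℂ)) < (s.re : EReal) :=
      lt_of_le_of_lt hab (by exact_mod_cast hs)
    exact (LSeries_hasDerivAt h1).differentiableAt
  have hFr : ∀ y : ℝ, 1 < y → (F y).im = 0 := by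
    intro y hy
    rw [hFdef]
    unfold LSeries
    rw [Complex.im_tsum (hFsum y (by simpa using hy))]
    have : ∀ n, (LSeries.term (fun k => (gD D k : ℂ)) y n).im = 0 := by
      intro n
      rw [LSeries.term_def]
      split_ifs with h
      · simp
      · have : ((gD D n : ℝ) : ℂ) / (n : ℂ) ^ (y : ℂ) = ((gD D n / (n : ℝ) ^ y : ℝ) : ℂ) := by
          rw [Complex.ofReal_div, Complex.ofReal_cpow (Nat.cast_nonneg n)]
          simp
        rw [this, Complex.ofReal_im]
    simp [this]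
  have hF3 : 0 < (F ((3 : ℝ) : ℂ)).re := by
    have h1 := (LS_bound _ hgD1 ((3 : ℝ) : ℂ) (by simp)).2
    rw [gD_one] at h1
    have h2 := Complex.abs_re_le_norm (LSeries (fun k => (gD D k : ℂ)) ((3 : ℝ) : ℂ) - (1 : ℝ))
    have h3 := h2.trans h1
    rw [Complex.sub_re, Complex.ofReal_re, Complex.ofReal_re] at h3
    have h4 := (abs_le.1 h3).1
    have : (F ((3 : ℝ) : ℂ)).re = (LSeries (fun k => (gD D k : ℂ)) ((3 : ℝ) : ℂ)).re := rfl
    rw [this]
    norm_num at h4 ⊢
    linarith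
  set c : ℕ → ℂ := fun k => (taC d D k : ℂ) with hc
  have hcsum : ∀ s : ℂ, 1 < s.re → LSeriesSummable c s :=
    fun s hs => (hTAC d κ hd hκ s hs).1
  have hcF : ∀ s : ℂ, 1 < s.re → LSeries c s = ff s d * F s :=
    fun s hs => (hTAC d κ hd hκ s hs).2
  have hline : ∀ s : ℂ, s.re = 1 + 1 / u → ‖LSeries c s‖ ≤ B0 * u := by
    intro s hs
    have hup : 0 < 1 / u := by positivity
    have hs1 : 1 < s.re := by rw [hs]; linarith
    rw [hcF s hs1, norm_mul]
    have h1 := (LS_bound _ hgD1 s hs1).1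
    have h2 := ff_le s d (by linarith)
    have h3 : 1 / (s.re - 1) = u := by
      rw [hs]; field_simp; ring
    rw [h3] at h1
    calc ‖ff s d‖ * ‖F s‖ ≤ 1 * (1 + u) := by gcongr
      _ ≤ 3 * u := by linarith
      _ ≤ B0 * u := by
        rw [hB0]
        have : 0 ≤ (20 * |CL| + 800 * |CL| / m) * |CE| := by positivity
        nlinarith
  have hE' : ∀ s : ℂ, 3 / 4 < s.re → DifferentiableAt ℂ E s ∧ E s ≠ 0 :=
    fun s hs => ⟨(hE1 s hs).1, (hE1 s hs).2.1⟩
  have hT1 : 1 ≤ T - 1 := by linarith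
  have hT1e : Real.exp x ≤ T - 1 := by rw [hT]; linarith
  have hLR : ta d D u = (LS c u).re := LR_re _ _
  rw [hLR]
  have hgoal : ∀ (C η : ℝ), 0 ≤ C → C ≤ C1 + C2 → m / (20 * x) ≤ η →
      (LS c u).re ≤ C * (B0 * u) * (Real.exp (-(η * u)) + 1 / (T - 1)) →
      (LS c u).re ≤ (C1 + C2) * B0 * (2 * (2 / (m / 40) ^ 2)) * Real.exp (-(m / 40 * x)) := by
    intro C η hC hC2' hη h
    refine h.trans ((final_bd C (B0 * u) u η (T - 1) m x hC B0 hB00 le_rfl hx1 hxu
      hm0 hm8 hη hT1e).trans ?_)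
    gcongr
  by_cases hcase : 1 - η0 / 2 ≤ β ∧ L β = 0
  · -- an exceptional zero
    obtain ⟨hβ2, hβ0⟩ := hcase
    have hβz := hzero β (by simp only [Complex.ofReal_re]; linarith)
      (by simp only [Complex.ofReal_im, abs_zero]; linarith) hβ0
    set l : ℂ → ℂ := dslope L β with hl
    have hld : Differentiable ℂ l := by
      rw [← differentiableOn_univ]
      exact (Complex.differentiableOn_dslope Filter.univ_mem).2 hLd.differentiableOn
    have hLl : ∀ s : ℂ, L s = (s - β) * l s := by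
      intro s
      have := sub_smul_dslope L β s
      rw [hβ0, sub_zero, smul_eq_mul] at this
      exact this.symm
    have hlne : ∀ s ∈ Rc (1 - η0) 4 T, l s ≠ 0 := by
      intro s hs h0
      rw [mem_Rc] at hs
      by_cases hsβ : s = β
      · rw [hsβ, hl, dslope_same] at h0
        exact hβz.2 h0
      · have h1 : L s = 0 := by rw [hLl s, h0, mul_zero]
        exact hsβ (hzero s (by linarith [hs.1.1]) hs.2.le h1).1
    obtain ⟨K, hK1, hK2, hK3⟩ := rectB hSQR L l E F (1 - η0) T β hld hLl hβ1 hE' hFd hFF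
      (by linarith) (by linarith) (by linarith) hlne hFr hF3
    have hKb : ∀ s : ℂ, 1 - 3 * η0 / 4 ≤ s.re → s.re ≤ 2 → |s.im| ≤ T - 1 → ‖K s‖ ≤ B0 * u := by
      intro s h1 h2 h3
      have hs : s ∈ Rc (1 - η0) 4 T := by
        rw [mem_Rc]
        exact ⟨⟨by linarith, by linarith⟩, by linarith⟩
      have h4 := (hK1 s hs).2
      have hlb : ‖l s‖ ≤ 4 * |CL| * ℓ / (η0 / 8) := by
        apply quot_bound L l β (η0 / 8) (4 * |CL| * ℓ) hld hLl (by positivity)
        · intro z hz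
          have hre := Complex.abs_re_le_norm (z - β)
          have him := Complex.abs_im_le_norm (z - β)
          rw [hz] at hre him
          rw [Complex.sub_re, Complex.ofReal_re, abs_le] at hre
          rw [Complex.sub_im, Complex.ofReal_im, sub_zero] at him
          exact hLb z (by linarith) (by linarith) (by linarith)
        · intro _
          exact hLb s (by linarith) (by linarith) (by linarith)
      have h5 : 4 * |CL| * ℓ / (η0 / 8) ≤ 800 * |CL| / m * u := by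
        have e1 : 4 * |CL| * ℓ / (η0 / 8) = 32 * |CL| / m * ℓ ^ 2 := by
          rw [hη0]; field_simp; ring
        rw [e1]
        have e2 : ℓ ^ 2 ≤ 25 * u := by
          rw [← hxu]; nlinarith
        calc 32 * |CL| / m * ℓ ^ 2 ≤ 32 * |CL| / m * (25 * u) := by gcongr
          _ = 800 * |CL| / m * u := by ring
      have h6 : ‖K s ^ 2‖ ≤ 800 * |CL| / m * u * |CE| := by
        rw [h4, norm_mul]
        have := (hE1 s (by linarith)).2.2
        have h7 : ‖E s‖ ≤ |CE| := this.trans (le_abs_self _)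
        gcongr
        exact hlb.trans h5
      refine (sq_bound _ _ h6).trans ?_
      rw [hB0]
      have : 0 ≤ 20 * |CL| * |CE| * u := by positivity
      nlinarith
    apply hgoal C2 (3 * η0 / 4) hC2 (by linarith)
    · have : m / (20 * x) = m / (5 * x) / 4 := by field_simp; ring
      rw [this]; linarith
    apply hCK c (fun s => ff s d * K s) u (3 * η0 / 4) (T - 1) (B0 * u) β hu (by positivity)
      (by linarith) hT1 (by positivity) (by linarith) hβ1 hcsum hline
    · intro s h1 h2 h3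
      have hs : s ∈ Rc (1 - η0) 4 T := by
        rw [mem_Rc]
        exact ⟨⟨by linarith, by linarith⟩, by linarith⟩
      refine ⟨(ff_diff s d (by linarith)).mul (hK1 s hs).1, ?_⟩
      rw [norm_mul]
      calc ‖ff s d‖ * ‖K s‖ ≤ 1 * (B0 * u) := by
            gcongr
            · exact ff_le s d (by linarith)
            · exact hKb s h1 h2 h3
        _ = B0 * u := one_mul _
    · intro y h1 h2
      obtain ⟨r, hr, hr2⟩ := hK3 y (by linarith) (by linarith)
      obtain ⟨r', hr', hr2'⟩ := ff_real y d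
      refine ⟨r' * r, by positivity, ?_⟩
      rw [hr2, hr2']
      push_cast; ring
    · intro s h1 h2 h3
      have hs : s ∈ Rc 1 4 T := by
        rw [mem_Rc]
        exact ⟨⟨by linarith, by linarith⟩, by linarith⟩
      rw [hcF s h1, hK2 s hs]
      ring
  · -- no exceptional zero
    have hLne : ∀ s ∈ Rc (1 - η0 / 2) 4 T, L s ≠ 0 := by
      intro s hs h0
      rw [mem_Rc] at hs
      have h1 := (hzero s (by linarith [hs.1.1]) hs.2.le h0).1
      apply hcase
      rw [h1] at h0 hs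
      refine ⟨?_, h0⟩
      have := hs.1.1
      rw [Complex.ofReal_re] at this
      linarith
    obtain ⟨K, hK1, hK2⟩ := rectA hSQR L E F (1 - η0 / 2) T hLd hE' hFd hFF
      (by linarith) (by linarith) (by linarith) hLne
    have hKb : ∀ s : ℂ, 1 - η0 / 4 ≤ s.re → s.re ≤ 2 → |s.im| ≤ T - 1 → ‖K s‖ ≤ B0 * u := by
      intro s h1 h2 h3
      have hs : s ∈ Rc (1 - η0 / 2) 4 T := by
        rw [mem_Rc]
        exact ⟨⟨by linarith, by linarith⟩, by linarith⟩
      have h4 := (hK1 s hs).2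
      have h6 : ‖K s ^ 2‖ ≤ 20 * |CL| * u * |CE| := by
        rw [h4, norm_mul]
        have := (hE1 s (by linarith)).2.2
        have h7 : ‖E s‖ ≤ |CE| := this.trans (le_abs_self _)
        have h8 : ‖L s‖ ≤ 20 * |CL| * u := by
          refine (hLb s (by linarith) (by linarith) (by linarith)).trans ?_
          have : ℓ ≤ 5 * u := by linarith
          calc 4 * |CL| * ℓ ≤ 4 * |CL| * (5 * u) := by gcongr
            _ = 20 * |CL| * u := by ring
        gcongr
      refine (sq_bound _ _ h6).trans ?_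
      rw [hB0]
      have : 0 ≤ 800 * |CL| / m * |CE| * u := by positivity
      nlinarith
    apply hgoal C1 (η0 / 4) hC1 (by linarith)
    · have : m / (20 * x) = m / (5 * x) / 4 := by field_simp; ring
      rw [this]; linarith
    refine (Complex.re_le_norm _).trans ?_
    apply hCT c (fun s => ff s d * K s) u (η0 / 4) (T - 1) (B0 * u) hu (by positivity)
      (by linarith) hT1 (by positivity) hcsum hline
    · intro s h1 h2 h3
      have hs : s ∈ Rc (1 - η0 / 2) 4 T := by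
        rw [mem_Rc]
        exact ⟨⟨by linarith, by linarith⟩, by linarith⟩
      refine ⟨(ff_diff s d (by linarith)).mul (hK1 s hs).1, ?_⟩
      rw [norm_mul]
      calc ‖ff s d‖ * ‖K s‖ ≤ 1 * (B0 * u) := by
            gcongr
            · exact ff_le s d (by linarith)
            · exact hKb s h1 h2 h3
        _ = B0 * u := one_mul _
    · intro s h1 h2 h3
      have hs : s ∈ Rc 1 4 T := by
        rw [mem_Rc]
        exact ⟨⟨by linarith, by linarith⟩, by linarith⟩
      rw [hcF s h1, hK2 s hs]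

end

end Pool.Agent.Y446.FK
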